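import Pool.Agent.Lib.H8.Hyp2

set_option maxHeartbeats 400000

namespace Pool.Agent.Results.MP_18c163_nt.Yes
open PowerSeries

/-- The Pochhammer symbol (x)_n = x(x+1)⋯(x+n-1). -/
def poch (x : ℚ) (n : ℕ) : ℚ := ∏ i ∈ Finset.range n, (x + i)

/-- The series ₂F₁(α, β; γ; 4t) in ℚ⟦t⟧. -/
noncomputable def F4 (α β γ : ℚ) : ℚ⟦X⟧ :=
  PowerSeries.mk fun n => poch α n * poch β n / (poch γ n * n.factorial) * 4 ^ n

/-- The quotient Q_{a,b,c,d,e,f} = N / D. -/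
noncomputable def Q (a b c d e f : ℕ) : ℚ⟦X⟧ :=
  F4 (3 / 4 + a) (3 / 4 + b) (3 / 2 + c) * (F4 (1 / 4 + d) (1 / 4 + e) (1 / 2 + f))⁻¹

theorem result (a b c d e f n : ℕ) : Odd (coeff n (Q a b c d e f)).den := by
  refine Pool.Agent.Lib.H8.Hyp2.main a b c d e f (Q a b c d e f) ?_ n
  have h : constantCoeff (F4 (1 / 4 + d) (1 / 4 + e) (1 / 2 + f)) ≠ 0 := by
    rw [← coeff_zero_eq_constantCoeff_apply]; simp [F4, poch]
  have h2 := PowerSeries.mul_inv_cancel _ h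
  change Q a b c d e f * F4 _ _ _ = F4 _ _ _
  rw [Q, mul_assoc, mul_comm _⁻¹, h2, mul_one]

end Pool.Agent.Results.MP_18c163_nt.Yes
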